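import Pool.Agent.H21.RC6

namespace Pool.Agent.Results.MP_afa6c5_al.Yes

open Pool.Agent.H21.RCDefs

theorem result (n : ℕ) (hn : 4 < n) :
    ∃ (G : Type) (_ : Group G), (∃ r : G → G → Prop, BiOrd r) ∧ derivedSeries G n = ⊥ ∧
      derivedSeries G (n - 1) ≠ ⊥ ∧
      ∃! H : Subgroup G, H.Normal ∧ RelConvex H ∧ H ≠ ⊥ ∧ H ≠ ⊤ := by
  obtain ⟨d, rfl⟩ : ∃ d, n = d + 4 := ⟨n - 4, by omega⟩
  obtain ⟨U, _, ⟨B⟩⟩ := Pool.Agent.H21.RC5.ex d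
  exact B.sys.result

end Pool.Agent.Results.MP_afa6c5_al.Yes
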